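import Mathlib

set_option autoImplicit false

/-!
# Systematic search for infinite models

Sequents of signed instances of first-order formulas over names `0, 1, 2, ...`; the search
calculus `Der t Γ` (`t` names are known, different names denote different elements). If
`Der 0 {¬ ψ}` fails then `ψ` has a model with universe `ℕ`.
-/

namespace Pool.H31.SF

open FirstOrder FirstOrder.Language

variable {L : FirstOrder.Language.{0, 0}} [L.IsRelational]

/-- The value of a term of a relational language, that is, of a variable. -/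
def tv {P : Type} {k : ℕ} (v : Fin k → P) : L.Term (Empty ⊕ Fin k) → P
  | .var (.inl e) => e.elim
  | .var (.inr i) => v i
  | .func f _ => isEmptyElim f

variable (L) in
/-- An instance of a formula: a formula and the elements denoted by its variables. -/
structure Inst (P : Type) where
  k : ℕ
  φ : L.BoundedFormula Empty k
  v : Fin k → P

/-- All names which occur are less than `t`. -/
def Below (t : ℕ) (c : Inst L ℕ) : Prop := ∀ i, c.v i < t

/-- All names which occur are less than `t`. -/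
def WF (t : ℕ) (Γ : Finset (Bool × Inst L ℕ)) : Prop := ∀ x ∈ Γ, Below t x.2

open Classical in
/-- The search calculus. A sequent `Γ` says that some member `(b, c)` of it has the truth value
`b`, for all choices of `t` different elements for the names `0, ..., t-1`. -/
inductive Der : ℕ → Finset (Bool × Inst L ℕ) → Prop
  | weak {t : ℕ} {Γ Δ : Finset (Bool × Inst L ℕ)} : WF t Δ → Γ ⊆ Δ → Der t Γ → Der t Δ
  | ident {t : ℕ} {Γ : Finset (Bool × Inst L ℕ)} (c : Inst L ℕ) : WF t Γ →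
      (true, c) ∈ Γ → (false, c) ∈ Γ → Der t Γ
  | atom {t : ℕ} {Γ : Finset (Bool × Inst L ℕ)} {k k' m : ℕ} (R : L.Relations m)
      (ts : Fin m → L.Term (Empty ⊕ Fin k)) (ts' : Fin m → L.Term (Empty ⊕ Fin k'))
      (v : Fin k → ℕ) (v' : Fin k' → ℕ) : WF t Γ → (∀ i, tv v (ts i) = tv v' (ts' i)) →
      (true, ⟨k, .rel R ts, v⟩) ∈ Γ → (false, ⟨k', .rel R ts', v'⟩) ∈ Γ → Der t Γ
  | cut {t : ℕ} {Γ : Finset (Bool × Inst L ℕ)} (c : Inst L ℕ) :
      Der t (insert (true, c) Γ) → Der t (insert (false, c) Γ) → Der t Γ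
  | falsum {t : ℕ} {Γ : Finset (Bool × Inst L ℕ)} {k : ℕ} (v : Fin k → ℕ) : WF t Γ →
      (false, ⟨k, .falsum, v⟩) ∈ Γ → Der t Γ
  | eq {t : ℕ} {Γ : Finset (Bool × Inst L ℕ)} {k : ℕ} (t₁ t₂ : L.Term (Empty ⊕ Fin k))
      (v : Fin k → ℕ) : WF t Γ → tv v t₁ = tv v t₂ → (true, ⟨k, .equal t₁ t₂, v⟩) ∈ Γ → Der t Γ
  | ne {t : ℕ} {Γ : Finset (Bool × Inst L ℕ)} {k : ℕ} (t₁ t₂ : L.Term (Empty ⊕ Fin k))
      (v : Fin k → ℕ) : WF t Γ → tv v t₁ ≠ tv v t₂ → (false, ⟨k, .equal t₁ t₂, v⟩) ∈ Γ → Der t Γ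
  | impR {t : ℕ} {Γ : Finset (Bool × Inst L ℕ)} {k : ℕ} (φ χ : L.BoundedFormula Empty k)
      (v : Fin k → ℕ) : (true, ⟨k, .imp φ χ, v⟩) ∈ Γ →
      Der t (insert (false, ⟨k, φ, v⟩) (insert (true, ⟨k, χ, v⟩) Γ)) → Der t Γ
  | impL {t : ℕ} {Γ : Finset (Bool × Inst L ℕ)} {k : ℕ} (φ χ : L.BoundedFormula Empty k)
      (v : Fin k → ℕ) : (false, ⟨k, .imp φ χ, v⟩) ∈ Γ →
      Der t (insert (true, ⟨k, φ, v⟩) Γ) → Der t (insert (false, ⟨k, χ, v⟩) Γ) → Der t Γ
  | allL {t : ℕ} {Γ : Finset (Bool × Inst L ℕ)} {k : ℕ} (φ : L.BoundedFormula Empty (k + 1))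
      (v : Fin k → ℕ) (b : ℕ) : b < t → (false, ⟨k, .all φ, v⟩) ∈ Γ →
      Der t (insert (false, ⟨k + 1, φ, Fin.snoc v b⟩) Γ) → Der t Γ
  | allR {t : ℕ} {Γ : Finset (Bool × Inst L ℕ)} {k : ℕ} (φ : L.BoundedFormula Empty (k + 1))
      (v : Fin k → ℕ) : WF t Γ → (true, ⟨k, .all φ, v⟩) ∈ Γ →
      (∀ b < t, Der t (insert (true, ⟨k + 1, φ, Fin.snoc v b⟩) Γ)) →
      Der (t + 1) (insert (true, ⟨k + 1, φ, Fin.snoc v t⟩) Γ) → Der t Γ
  | new {t : ℕ} {Γ : Finset (Bool × Inst L ℕ)} : WF t Γ → Der (t + 1) Γ → Der t Γ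

/-- The subformulas of a formula. -/
def subf : {k : ℕ} → L.BoundedFormula Empty k → Set (Σ k : ℕ, L.BoundedFormula Empty k)
  | k, .falsum => {⟨k, .falsum⟩}
  | k, .equal t₁ t₂ => {⟨k, .equal t₁ t₂⟩}
  | k, .rel R ts => {⟨k, .rel R ts⟩}
  | k, .imp φ χ => insert ⟨k, .imp φ χ⟩ (subf φ ∪ subf χ)
  | k, .all φ => insert ⟨k, .all φ⟩ (subf φ)

omit [L.IsRelational] in
theorem self_mem_subf {k : ℕ} (φ : L.BoundedFormula Empty k) : ⟨k, φ⟩ ∈ subf φ := by
  cases φ
  · exact Set.mem_singleton _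
  · exact Set.mem_singleton _
  · exact Set.mem_singleton _
  · exact Set.mem_insert _ _
  · exact Set.mem_insert _ _

omit [L.IsRelational] in
theorem subf_finite {k : ℕ} (φ : L.BoundedFormula Empty k) : (subf φ).Finite := by
  induction φ with
  | falsum => exact Set.finite_singleton _
  | equal t₁ t₂ => exact Set.finite_singleton _
  | rel R ts => exact Set.finite_singleton _
  | imp φ χ ih1 ih2 => exact (ih1.union ih2).insert _
  | all φ ih => exact ih.insert _

omit [L.IsRelational] in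
theorem subf_trans {k : ℕ} (φ : L.BoundedFormula Empty k) :
    ∀ p ∈ subf φ, subf p.2 ⊆ subf φ := by
  induction φ with
  | falsum =>
    rintro p (rfl : p = _)
    exact subset_rfl
  | equal t₁ t₂ =>
    rintro p (rfl : p = _)
    exact subset_rfl
  | rel R ts =>
    rintro p (rfl : p = _)
    exact subset_rfl
  | imp φ χ ih1 ih2 =>
    rintro p (rfl | hp | hp)
    · exact subset_rfl
    · exact ((ih1 p hp).trans Set.subset_union_left).trans (Set.subset_insert _ _)
    · exact ((ih2 p hp).trans Set.subset_union_right).trans (Set.subset_insert _ _)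
  | all φ ih =>
    rintro p (rfl | hp)
    · exact subset_rfl
    · exact (ih p hp).trans (Set.subset_insert _ _)

omit [L.IsRelational] in
theorem WF.mono {t : ℕ} {Γ Δ : Finset (Bool × Inst L ℕ)} (h : WF t Δ) (hs : Γ ⊆ Δ) : WF t Γ :=
  fun x hx => h x (hs hx)

omit [L.IsRelational] in
theorem WF.succ {t : ℕ} {Γ : Finset (Bool × Inst L ℕ)} (h : WF t Γ) : WF (t + 1) Γ :=
  fun x hx i => (h x hx i).trans (Nat.lt_succ_self t)

omit [L.IsRelational] in
open Classical in
theorem WF.insert {t : ℕ} {Γ : Finset (Bool × Inst L ℕ)} (h : WF t Γ) {x : Bool × Inst L ℕ}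
    (hx : Below t x.2) : WF t (insert x Γ) := by
  intro y hy
  rcases Finset.mem_insert.1 hy with rfl | hy
  · exact hx
  · exact h y hy

omit [L.IsRelational] in
theorem Below.snoc {t k : ℕ} {φ : L.BoundedFormula Empty k} {v : Fin k → ℕ}
    (h : Below t (⟨k, φ, v⟩ : Inst L ℕ)) {χ : L.BoundedFormula Empty (k + 1)} {b : ℕ}
    (hb : b < t) : Below t (⟨k + 1, χ, Fin.snoc v b⟩ : Inst L ℕ) := by
  intro i
  refine Fin.lastCases ?_ (fun j => ?_) i
  · show (Fin.snoc v b : Fin (k + 1) → ℕ) (Fin.last k) < t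
    rw [Fin.snoc_last]
    exact hb
  · show (Fin.snoc v b : Fin (k + 1) → ℕ) j.castSucc < t
    rw [Fin.snoc_castSucc]
    exact h j

open Classical in
/-- One step of the search. -/
theorem step {t : ℕ} {Γ : Finset (Bool × Inst L ℕ)} (hw : WF t Γ) (hd : ¬ Der t Γ)
    (c : Inst L ℕ) : ∃ (t' : ℕ) (Γ' : Finset (Bool × Inst L ℕ)), t < t' ∧ Γ ⊆ Γ' ∧ WF t' Γ' ∧
      ¬ Der t' Γ' ∧ (Below t c → ∃ s, (s, c) ∈ Γ' ∧ ∀ (k : ℕ) (φ : L.BoundedFormula Empty (k + 1))
        (v : Fin k → ℕ), c = ⟨k, .all φ, v⟩ → s = true →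
          ∃ b, (true, (⟨k + 1, φ, Fin.snoc v b⟩ : Inst L ℕ)) ∈ Γ') := by
  by_cases hc : Below t c
  · -- decide `c`
    have h1 : ∃ s, ¬ Der t (insert (s, c) Γ) := by
      by_contra hcon
      push Not at hcon
      exact hd (Der.cut c (hcon true) (hcon false))
    obtain ⟨s, hs⟩ := h1
    have hws : WF t (insert (s, c) Γ) := hw.insert hc
    by_cases hall : ∃ (k : ℕ) (φ : L.BoundedFormula Empty (k + 1)) (v : Fin k → ℕ),
        c = ⟨k, .all φ, v⟩ ∧ s = true
    · obtain ⟨k, φ, v, rfl, rfl⟩ := hall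
      have h2 : (∃ b < t, ¬ Der t (insert (true, ⟨k + 1, φ, Fin.snoc v b⟩)
          (insert (true, (⟨k, .all φ, v⟩ : Inst L ℕ)) Γ))) ∨
          ¬ Der (t + 1) (insert (true, ⟨k + 1, φ, Fin.snoc v t⟩)
          (insert (true, (⟨k, .all φ, v⟩ : Inst L ℕ)) Γ)) := by
        by_contra hcon
        push Not at hcon
        exact hs (Der.allR φ v hws (Finset.mem_insert_self _ _) hcon.1 hcon.2)
      have h3 : ∃ b, b < t + 1 ∧ ¬ Der (t + 1) (insert (true, ⟨k + 1, φ, Fin.snoc v b⟩)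
          (insert (true, (⟨k, .all φ, v⟩ : Inst L ℕ)) Γ)) := by
        rcases h2 with ⟨b, hb, h⟩ | h
        · refine ⟨b, hb.trans (Nat.lt_succ_self t), fun h' => h (Der.new ?_ h')⟩
          exact hws.insert (hc.snoc hb)
        · exact ⟨t, Nat.lt_succ_self t, h⟩
      obtain ⟨b, hb, h4⟩ := h3
      have hc' : Below (t + 1) (⟨k, .all φ, v⟩ : Inst L ℕ) :=
        fun i => (hc i).trans (Nat.lt_succ_self t)
      refine ⟨t + 1, _, Nat.lt_succ_self t, ?_, hws.succ.insert (hc'.snoc hb), h4, fun _ => ?_⟩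
      · exact (Finset.subset_insert _ _).trans (Finset.subset_insert _ _)
      · refine ⟨true, Finset.mem_insert_of_mem (Finset.mem_insert_self _ _), ?_⟩
        intro k' φ' v' heq _
        obtain ⟨rfl, heq⟩ := Inst.mk.inj heq
        obtain ⟨heq1, heq2⟩ := heq
        have e1 := eq_of_heq heq1
        have e2 := eq_of_heq heq2
        injection e1 with _ e3
        subst e2
        rw [← e3]
        exact ⟨b, Finset.mem_insert_self _ _⟩
    · refine ⟨t + 1, insert (s, c) Γ, Nat.lt_succ_self t, Finset.subset_insert _ _, hws.succ,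
        fun h => hs (Der.new hws h), fun _ => ⟨s, Finset.mem_insert_self _ _, ?_⟩⟩
      intro k φ v h1 h2
      exact absurd ⟨k, φ, v, h1, h2⟩ hall
  · exact ⟨t + 1, Γ, Nat.lt_succ_self t, subset_rfl, hw.succ, fun h => hd (Der.new hw h),
      fun h => absurd h hc⟩

theorem realize_tv {P : Type} [L.Structure P] {k : ℕ} (w : Empty → P) (v : Fin k → P)
    (t : L.Term (Empty ⊕ Fin k)) : t.realize (Sum.elim w v) = tv v t := by
  cases t with
  | var x =>
    cases x with
    | inl e => exact e.elim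
    | inr i => rfl
  | func f ts => exact isEmptyElim f

omit [L.IsRelational] in
theorem countable_inst (ψ : L.Sentence) :
    {c : Inst L ℕ | (⟨c.k, c.φ⟩ : Σ k : ℕ, L.BoundedFormula Empty k) ∈ subf ψ}.Countable := by
  have h1 : (⋃ p ∈ subf ψ, Set.range (fun v : Fin p.1 → ℕ => (⟨p.1, p.2, v⟩ : Inst L ℕ))).Countable :=
    (subf_finite ψ).countable.biUnion fun p _ => Set.countable_range _
  refine h1.mono fun c hc => ?_
  exact Set.mem_iUnion₂.2 ⟨⟨c.k, c.φ⟩, hc, c.v, rfl⟩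

open Classical in
/-- **Completeness of the search.** If `¬ ψ` is not derivable then `ψ` has a model with universe
`ℕ`. -/
theorem exists_model (ψ : L.Sentence)
    (hd : ¬ Der 0 {(false, (⟨0, ψ, default⟩ : Inst L ℕ))}) :
    ∃ M : L.Structure ℕ, @Sentence.Realize L ℕ M ψ := by
  -- the tasks
  obtain ⟨g, hg⟩ := (countable_inst ψ).exists_eq_range
    ⟨(⟨0, ψ, default⟩ : Inst L ℕ), self_mem_subf ψ⟩
  have hg' : ∀ c : Inst L ℕ, (⟨c.k, c.φ⟩ : Σ k : ℕ, L.BoundedFormula Empty k) ∈ subf ψ →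
      ∃ a, g a = c := by
    intro c hc
    have : c ∈ Set.range g := by
      rw [← hg]
      exact hc
    exact this
  -- the states
  let St : Type := {p : ℕ × Finset (Bool × Inst L ℕ) // WF p.1 p.2 ∧ ¬ Der p.1 p.2}
  have hstep : ∀ (s : St) (c : Inst L ℕ), ∃ s' : St, s.1.1 < s'.1.1 ∧ s.1.2 ⊆ s'.1.2 ∧
      (Below s.1.1 c → ∃ b, (b, c) ∈ s'.1.2 ∧ ∀ (k : ℕ) (φ : L.BoundedFormula Empty (k + 1))
        (v : Fin k → ℕ), c = ⟨k, .all φ, v⟩ → b = true →
          ∃ b, (true, (⟨k + 1, φ, Fin.snoc v b⟩ : Inst L ℕ)) ∈ s'.1.2) := by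
    intro s c
    obtain ⟨t', Γ', h1, h2, h3, h4, h5⟩ := step s.2.1 s.2.2 c
    exact ⟨⟨(t', Γ'), h3, h4⟩, h1, h2, h5⟩
  choose F hF1 hF2 hF3 using hstep
  have hw0 : WF 0 {(false, (⟨0, ψ, default⟩ : Inst L ℕ))} := by
    intro x hx i
    rw [Finset.mem_singleton] at hx
    subst hx
    exact i.elim0
  let s : ℕ → St := fun i => Nat.rec ⟨(0, {(false, (⟨0, ψ, default⟩ : Inst L ℕ))}), hw0, hd⟩
    (fun i st => F st (g i.unpair.1)) i
  have hs : ∀ i, s (i + 1) = F (s i) (g i.unpair.1) := fun i => rfl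
  have ht : ∀ i, i ≤ (s i).1.1 := by
    intro i
    induction i with
    | zero => exact Nat.zero_le _
    | succ i ih =>
      rw [hs]
      exact Nat.succ_le_of_lt (lt_of_le_of_lt ih (hF1 _ _))
  have hmono : ∀ i j, i ≤ j → (s i).1.2 ⊆ (s j).1.2 := by
    intro i j hij
    induction j, hij using Nat.le_induction with
    | base => exact subset_rfl
    | succ j _ ih =>
      rw [hs]
      exact ih.trans (hF2 _ _)
  let T : Set (Bool × Inst L ℕ) := {x | ∃ i, x ∈ (s i).1.2}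
  have hev : ∀ x ∈ T, ∀ᶠ j in Filter.atTop, x ∈ (s j).1.2 := by
    rintro x ⟨i, hi⟩
    filter_upwards [Filter.eventually_ge_atTop i] with j hj
    exact hmono i j hj hi
  have hwf : ∀ i, WF (s i).1.1 (s i).1.2 := fun i => (s i).2.1
  have hnd : ∀ i, ¬ Der (s i).1.1 (s i).1.2 := fun i => (s i).2.2
  have hcons : ∀ c, (true, c) ∈ T → (false, c) ∈ T → False := by
    intro c h1 h2
    obtain ⟨j, h3, h4⟩ := ((hev _ h1).and (hev _ h2)).exists
    exact hnd j (Der.ident c (hwf j) h3 h4)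
  have hdec : ∀ c : Inst L ℕ, (⟨c.k, c.φ⟩ : Σ k : ℕ, L.BoundedFormula Empty k) ∈ subf ψ →
      ∃ b, (b, c) ∈ T ∧ ∀ (k : ℕ) (φ : L.BoundedFormula Empty (k + 1)) (v : Fin k → ℕ),
        c = ⟨k, .all φ, v⟩ → b = true → ∃ b, (true, (⟨k + 1, φ, Fin.snoc v b⟩ : Inst L ℕ)) ∈ T := by
    intro c hc
    obtain ⟨a, ha⟩ := hg' c hc
    let N := (Finset.univ.sup c.v) + 1
    let i := Nat.pair a N
    have h1 : Below (s i).1.1 c := by
      intro l
      have h2 : c.v l ≤ Finset.univ.sup c.v := Finset.le_sup (f := c.v) (Finset.mem_univ l)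
      have h3 : N ≤ i := Nat.right_le_pair a N
      have h4 := ht i
      show c.v l < _
      omega
    have h2 : g i.unpair.1 = c := by
      show g (Nat.pair a N).unpair.1 = c
      rw [Nat.unpair_pair]
      exact ha
    obtain ⟨b, hb, hb2⟩ := hF3 (s i) c h1
    have h3 : s (i + 1) = F (s i) c := by rw [hs, h2]
    rw [← h3] at hb hb2
    refine ⟨b, ⟨i + 1, hb⟩, fun k φ v h4 h5 => ?_⟩
    obtain ⟨b', hb'⟩ := hb2 k φ v h4 h5
    exact ⟨b', i + 1, hb'⟩
  have hdec' : ∀ c : Inst L ℕ, (⟨c.k, c.φ⟩ : Σ k : ℕ, L.BoundedFormula Empty k) ∈ subf ψ →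
      (true, c) ∈ T ∨ (false, c) ∈ T := by
    intro c hc
    obtain ⟨b, hb, -⟩ := hdec c hc
    cases b
    · exact Or.inr hb
    · exact Or.inl hb
  -- the model
  let M : L.Structure ℕ :=
    { funMap := fun f => isEmptyElim f
      RelMap := fun {m} R x => ∃ (k : ℕ) (ts : Fin m → L.Term (Empty ⊕ Fin k)) (v : Fin k → ℕ),
        (∀ i, tv v (ts i) = x i) ∧ (false, (⟨k, .rel R ts, v⟩ : Inst L ℕ)) ∈ T }
  have truth : ∀ (w : Empty → ℕ) {k : ℕ} (φ : L.BoundedFormula Empty k),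
      (⟨k, φ⟩ : Σ k : ℕ, L.BoundedFormula Empty k) ∈ subf ψ → ∀ v : Fin k → ℕ,
      ((false, (⟨k, φ, v⟩ : Inst L ℕ)) ∈ T → φ.Realize w v) ∧
      ((true, (⟨k, φ, v⟩ : Inst L ℕ)) ∈ T → ¬ φ.Realize w v) := by
    intro w k φ
    induction φ with
    | falsum =>
      intro _ v
      refine ⟨fun h => ?_, fun _ h => h⟩
      obtain ⟨j, h1⟩ := (hev _ h).exists
      exact absurd (Der.falsum v (hwf j) h1) (hnd j)
    | equal t₁ t₂ =>
      intro _ v
      have h1 : (BoundedFormula.equal t₁ t₂).Realize w v ↔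
          tv v t₁ = tv v t₂ := by
        show t₁.realize (Sum.elim w v) = t₂.realize (Sum.elim w v) ↔ _
        rw [realize_tv, realize_tv]
      rw [h1]
      refine ⟨fun h => ?_, fun h h2 => ?_⟩
      · obtain ⟨j, h2⟩ := (hev _ h).exists
        by_contra h3
        exact hnd j (Der.ne t₁ t₂ v (hwf j) h3 h2)
      · obtain ⟨j, h3⟩ := (hev _ h).exists
        exact hnd j (Der.eq t₁ t₂ v (hwf j) h2 h3)
    | rel R ts =>
      intro _ v
      have h1 : (BoundedFormula.rel R ts).Realize w v ↔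
          Structure.RelMap R (fun i => tv v (ts i)) := by
        show Structure.RelMap R (fun i => (ts i).realize (Sum.elim w v)) ↔ _
        have : (fun i => (ts i).realize (Sum.elim w v)) =
            fun i => tv v (ts i) := funext fun i => realize_tv w v (ts i)
        rw [this]
      rw [h1]
      refine ⟨fun h => ⟨_, ts, v, fun i => rfl, h⟩, ?_⟩
      rintro h ⟨k', ts', v', h2, h3⟩
      obtain ⟨j, h4, h5⟩ := ((hev _ h).and (hev _ h3)).exists
      exact hnd j (Der.atom R ts ts' v v' (hwf j) (fun i => (h2 i).symm) h4 h5)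
    | imp φ χ ih1 ih2 =>
      intro hsub v
      have hs1 := subf_trans ψ _ hsub (Set.mem_insert_of_mem _ (Or.inl (self_mem_subf φ)))
      have hs2 := subf_trans ψ _ hsub (Set.mem_insert_of_mem _ (Or.inr (self_mem_subf χ)))
      have ih1' := ih1 hs1 v
      have ih2' := ih2 hs2 v
      rw [BoundedFormula.realize_imp]
      constructor
      · intro h h1
        rcases hdec' ⟨_, χ, v⟩ hs2 with h2 | h2
        · rcases hdec' ⟨_, φ, v⟩ hs1 with h3 | h3
          · exact absurd h1 (ih1'.2 h3)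
          · obtain ⟨j, ⟨h4, h5⟩, h6⟩ := (((hev _ h).and (hev _ h2)).and (hev _ h3)).exists
            have hb1 : Below (s j).1.1 (⟨_, φ, v⟩ : Inst L ℕ) := hwf j _ h6
            have hb2 : Below (s j).1.1 (⟨_, χ, v⟩ : Inst L ℕ) := hwf j _ h5
            refine absurd (Der.impL φ χ v h4 ?_ ?_) (hnd j)
            · exact Der.ident ⟨_, φ, v⟩ ((hwf j).insert hb1) (Finset.mem_insert_self _ _)
                (Finset.mem_insert_of_mem h6)
            · exact Der.ident ⟨_, χ, v⟩ ((hwf j).insert hb2) (Finset.mem_insert_of_mem h5)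
                (Finset.mem_insert_self _ _)
        · exact ih2'.1 h2
      · intro h h1
        rcases hdec' ⟨_, φ, v⟩ hs1 with h3 | h3
        · obtain ⟨j, h4, h5⟩ := ((hev _ h).and (hev _ h3)).exists
          have hb1 : Below (s j).1.1 (⟨_, φ, v⟩ : Inst L ℕ) := hwf j _ h5
          have hb2 : Below (s j).1.1 (⟨_, χ, v⟩ : Inst L ℕ) := hb1
          refine absurd (Der.impR φ χ v h4 ?_) (hnd j)
          exact Der.ident ⟨_, φ, v⟩ (((hwf j).insert hb2).insert hb1)
            (Finset.mem_insert_of_mem (Finset.mem_insert_of_mem h5)) (Finset.mem_insert_self _ _)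
        · have h4 := h1 (ih1'.1 h3)
          rcases hdec' ⟨_, χ, v⟩ hs2 with h2 | h2
          · exact ih2'.2 h2 h4
          · obtain ⟨j, h5, h6⟩ := ((hev _ h).and (hev _ h2)).exists
            have hb2 : Below (s j).1.1 (⟨_, χ, v⟩ : Inst L ℕ) := hwf j _ h6
            have hb1 : Below (s j).1.1 (⟨_, φ, v⟩ : Inst L ℕ) := hb2
            refine absurd (Der.impR φ χ v h5 ?_) (hnd j)
            exact Der.ident ⟨_, χ, v⟩ (((hwf j).insert hb2).insert hb1)
              (Finset.mem_insert_of_mem (Finset.mem_insert_self _ _))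
              (Finset.mem_insert_of_mem (Finset.mem_insert_of_mem h6))
    | all φ ih =>
      intro hsub v
      have hs1 := subf_trans ψ _ hsub (Set.mem_insert_of_mem _ (self_mem_subf φ))
      rw [BoundedFormula.realize_all]
      constructor
      · intro h b
        rcases hdec' ⟨_, φ, Fin.snoc v b⟩ hs1 with h2 | h2
        · obtain ⟨j, ⟨h4, h5⟩, h6⟩ := (((hev _ h).and (hev _ h2)).and
            (Filter.eventually_gt_atTop b)).exists
          have hb1 : Below (s j).1.1 (⟨_, φ, Fin.snoc v b⟩ : Inst L ℕ) := hwf j _ h5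
          refine absurd (Der.allL φ v b (h6.trans_le (ht j)) h4 ?_) (hnd j)
          exact Der.ident ⟨_, φ, Fin.snoc v b⟩ ((hwf j).insert hb1)
            (Finset.mem_insert_of_mem h5) (Finset.mem_insert_self _ _)
        · exact (ih hs1 _).1 h2
      · intro h h1
        obtain ⟨b, hb, hb2⟩ := hdec ⟨_, .all φ, v⟩ hsub
        cases b with
        | false => exact hcons _ h hb
        | true =>
          obtain ⟨b', hb'⟩ := hb2 _ φ v rfl rfl
          exact (ih hs1 _).2 hb' (h1 b')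
  refine ⟨M, ?_⟩
  have h0 : (false, (⟨0, ψ, default⟩ : Inst L ℕ)) ∈ T :=
    ⟨0, Finset.mem_singleton_self _⟩
  have h1 : ∀ v : Fin 0 → ℕ, (false, (⟨0, ψ, v⟩ : Inst L ℕ)) ∈ T := by
    intro v
    have e := Subsingleton.elim (default : Fin 0 → ℕ) v
    rw [← e]
    exact h0
  exact (truth _ ψ (self_mem_subf ψ) _).1 (h1 _)

end Pool.H31.SF
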