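import Mathlib

set_option autoImplicit false

/-!
# Small supports for subgroups of small index in the symmetric group

A subgroup `H` of `Sym(Ω)`, `N = |Ω|`, of index less than `C(N,k)` (`k ≤ N/8`) and less than
`2 ^ (N/8)` contains all even permutations which fix all points of a certain set `X` of fewer
than `k` points.
-/

namespace Pool.H31.SF

open Finset Equiv

/-! ### Counting cosets -/

/-- A family of group elements in different left cosets of `H` has at most `H.index` members. -/
theorem card_le_index {G : Type*} [Group G] [Finite G] (H : Subgroup G) {ι : Type*} [Fintype ι]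
    (f : ι → G) (hf : ∀ i j, (f i)⁻¹ * f j ∈ H → i = j) : Fintype.card ι ≤ H.index := by
  have h1 : Function.Injective (fun i => (f i : G ⧸ H)) := by
    intro i j hij
    exact hf i j (QuotientGroup.eq.1 hij)
  have h2 := Nat.card_le_card_of_injective _ h1
  rw [Nat.card_eq_fintype_card] at h2
  exact h2

/-! ### Binomial coefficients -/

theorem two_pow_le_centralBinom (j : ℕ) : 2 ^ j ≤ Nat.centralBinom j := by
  induction j with
  | zero => simp
  | succ j ih =>
    have h1 := Nat.succ_mul_centralBinom_succ j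
    have h2 : (j + 1) * 2 ^ (j + 1) ≤ (j + 1) * Nat.centralBinom (j + 1) := by
      rw [h1, pow_succ]
      nlinarith
    exact Nat.le_of_mul_le_mul_left h2 (Nat.succ_pos j)

theorem two_pow_le_choose {n j t : ℕ} (h1 : t ≤ j) (h2 : j + t ≤ n) : 2 ^ t ≤ n.choose j := by
  by_cases h : 2 * j ≤ n
  · calc 2 ^ t ≤ 2 ^ j := Nat.pow_le_pow_right (by norm_num) h1
      _ ≤ Nat.centralBinom j := two_pow_le_centralBinom j
      _ = (2 * j).choose j := rfl
      _ ≤ n.choose j := Nat.choose_le_choose _ h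
  · rw [← Nat.choose_symm (by omega : j ≤ n)]
    calc 2 ^ t ≤ 2 ^ (n - j) := Nat.pow_le_pow_right (by norm_num) (by omega)
      _ ≤ Nat.centralBinom (n - j) := two_pow_le_centralBinom _
      _ = (2 * (n - j)).choose (n - j) := rfl
      _ ≤ n.choose (n - j) := Nat.choose_le_choose _ (by omega)

theorem choose_le_choose_left {n k j : ℕ} (h1 : k ≤ j) (h2 : 2 * j ≤ n) :
    n.choose k ≤ n.choose j := by
  induction j with
  | zero =>
    have : k = 0 := by omega
    rw [this]
  | succ j ih =>
    rcases Nat.lt_or_ge j k with h | h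
    · have : k = j + 1 := by omega
      rw [this]
    · exact (ih h (by omega)).trans (Nat.choose_le_succ_of_lt_half_left (by omega))

theorem choose_le_choose_mid {n k j : ℕ} (h1 : k ≤ j) (h2 : j + k ≤ n) :
    n.choose k ≤ n.choose j := by
  by_cases h : 2 * j ≤ n
  · exact choose_le_choose_left h1 h
  · rw [← Nat.choose_symm (by omega : j ≤ n)]
    exact choose_le_choose_left (by omega) (by omega)

/-! ### Invariant sets -/

section

variable {Ω : Type*} [Fintype Ω] [DecidableEq Ω]

omit [Fintype Ω] [DecidableEq Ω] in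
theorem ia (σ : Perm Ω) (x : Ω) : σ⁻¹ (σ x) = x := σ.symm_apply_apply x

omit [Fintype Ω] [DecidableEq Ω] in
theorem ai (σ : Perm Ω) (x : Ω) : σ (σ⁻¹ x) = x := σ.apply_symm_apply x

/-- `A` is invariant under `H`. -/
def Inv (H : Subgroup (Perm Ω)) (A : Finset Ω) : Prop := ∀ h ∈ H, ∀ a ∈ A, h a ∈ A

omit [Fintype Ω] [DecidableEq Ω] in
theorem Inv.iff {H : Subgroup (Perm Ω)} {A : Finset Ω} (hA : Inv H A) {h : Perm Ω} (hh : h ∈ H)
    (a : Ω) : h a ∈ A ↔ a ∈ A := by
  constructor
  · intro h1
    have h2 := hA h⁻¹ (H.inv_mem hh) _ h1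
    rwa [ia] at h2
  · exact hA h hh a

/-- The number of sets of the size of an invariant set is at most the index. -/
theorem choose_le_index (H : Subgroup (Perm Ω)) (A : Finset Ω) (hA : Inv H A) :
    (Fintype.card Ω).choose A.card ≤ H.index := by
  have hex : ∀ B : {B : Finset Ω // B ∈ powersetCard A.card univ},
      ∃ σ : Perm Ω, A.map σ.toEmbedding = B.1 := by
    intro B
    have hB : B.1.card = A.card := (mem_powersetCard.1 B.2).2
    obtain ⟨e⟩ : Nonempty ({x // x ∈ A} ≃ {x // x ∈ B.1}) := by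
      rw [← Fintype.card_eq, Fintype.card_coe, Fintype.card_coe, hB]
    refine ⟨e.extendSubtype, ?_⟩
    apply eq_of_subset_of_card_le
    · intro y hy
      obtain ⟨x, hx, rfl⟩ := mem_map.1 hy
      exact e.extendSubtype_mem x hx
    · rw [card_map, hB]
  choose f hf using hex
  have h1 := card_le_index H f (by
    intro B C hBC
    have h2 : ∀ B C, (f B)⁻¹ * f C ∈ H → C.1 ⊆ B.1 := by
      intro B C h3 y hy
      rw [← hf C] at hy
      obtain ⟨x, hx, rfl⟩ := mem_map.1 hy
      have h4 := hA _ h3 x hx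
      rw [← hf B]
      refine mem_map.2 ⟨_, h4, ?_⟩
      show f B (((f B)⁻¹ * f C) x) = f C x
      rw [Perm.mul_apply, ai]
    apply Subtype.ext
    apply subset_antisymm
    · apply h2 C B
      have h5 := H.inv_mem hBC
      rwa [mul_inv_rev, inv_inv] at h5
    · exact h2 B C hBC)
  rwa [Fintype.card_coe, card_powersetCard, card_univ] at h1

omit [Fintype Ω] in
theorem Inv.union {H : Subgroup (Perm Ω)} {A B : Finset Ω} (hA : Inv H A) (hB : Inv H B) :
    Inv H (A ∪ B) := by
  intro h hh a ha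
  rcases mem_union.1 ha with h1 | h1
  · exact mem_union_left _ (hA h hh a h1)
  · exact mem_union_right _ (hB h hh a h1)

open Classical in
/-- The orbit of a point. -/
noncomputable def orb (H : Subgroup (Perm Ω)) (x : Ω) : Finset Ω :=
  univ.filter fun y => ∃ h ∈ H, h x = y

theorem mem_orb {H : Subgroup (Perm Ω)} {x y : Ω} : y ∈ orb H x ↔ ∃ h ∈ H, h x = y := by
  simp [orb]

theorem self_mem_orb (H : Subgroup (Perm Ω)) (x : Ω) : x ∈ orb H x :=
  mem_orb.2 ⟨1, H.one_mem, rfl⟩

theorem inv_orb (H : Subgroup (Perm Ω)) (x : Ω) : Inv H (orb H x) := by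
  intro h hh a ha
  obtain ⟨g, hg, rfl⟩ := mem_orb.1 ha
  exact mem_orb.2 ⟨h * g, H.mul_mem hh hg, rfl⟩

theorem orb_disjoint {H : Subgroup (Perm Ω)} {A : Finset Ω} (hA : Inv H A) {x : Ω}
    (hx : x ∉ A) : Disjoint (orb H x) A := by
  rw [disjoint_left]
  intro y hy hyA
  obtain ⟨g, hg, rfl⟩ := mem_orb.1 hy
  exact hx ((hA.iff hg x).1 hyA)

/-- If all invariant sets are small or large, then one orbit contains nearly everything. -/
theorem big_orbit (H : Subgroup (Perm Ω)) (k : ℕ) (hk : 0 < k) (h3 : 3 * k ≤ Fintype.card Ω)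
    (hinv : ∀ A : Finset Ω, Inv H A → k ≤ A.card → A.card + k ≤ Fintype.card Ω → False) :
    ∃ A : Finset Ω, A.card < k ∧ Inv H A ∧ ∀ x, x ∉ A → ∀ y, y ∉ A → ∃ h ∈ H, h x = y := by
  classical
  -- a maximal small invariant set
  obtain ⟨A, hA, hmax⟩ := exists_max_image
    (univ.filter fun A : Finset Ω => A.card < k ∧ Inv H A) card
    ⟨∅, mem_filter.2 ⟨mem_univ _, by rw [card_empty]; exact hk, by
      intro h _ a ha
      simp at ha⟩⟩
  rw [mem_filter] at hA
  refine ⟨A, hA.2.1, hA.2.2, ?_⟩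
  have hbig : ∀ x, x ∉ A → Fintype.card Ω < (orb H x).card + k := by
    intro x hx
    have h1 := hinv (A ∪ orb H x) (hA.2.2.union (inv_orb H x))
    have h2 : (A ∪ orb H x).card = A.card + (orb H x).card := by
      rw [card_union_of_disjoint (orb_disjoint hA.2.2 hx).symm]
    have h4 : 0 < (orb H x).card := card_pos.2 ⟨x, self_mem_orb H x⟩
    have h5 : k ≤ (A ∪ orb H x).card := by
      by_contra hcon
      have h6 := hmax (A ∪ orb H x) (mem_filter.2 ⟨mem_univ _, by omega,
        hA.2.2.union (inv_orb H x)⟩)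
      omega
    have h7 : ¬ ((A ∪ orb H x).card + k ≤ Fintype.card Ω) := fun h => h1 h5 h
    have h8 : k ≤ (orb H x).card := by omega
    by_contra hcon
    exact hinv (orb H x) (inv_orb H x) h8 (by omega)
  intro x hx y hy
  by_contra hcon
  have h1 : y ∉ orb H x := fun h => hcon (mem_orb.1 h)
  have h2 := orb_disjoint (inv_orb H x) h1
  have h3' := hbig x hx
  have h4 := hbig y hy
  have h5 := card_le_univ (orb H y ∪ orb H x)
  rw [card_union_of_disjoint h2] at h5
  omega

/-! ### Two permutations whose supports meet in one point -/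

theorem isThreeCycle_comm {g h : Perm Ω} {d : Ω} (hg : g d ≠ d) (hh : h d ≠ d)
    (hd : ∀ x, g x ≠ x → h x ≠ x → x = d) : (g * h * g⁻¹ * h⁻¹).IsThreeCycle := by
  -- points moved by `g` are moved to points moved by `g`
  have mg : ∀ x, g x ≠ x → g (g x) ≠ g x := fun x hx h1 => hx (g.injective h1)
  have mh : ∀ x, h x ≠ x → h (h x) ≠ h x := fun x hx h1 => hx (h.injective h1)
  have mg' : ∀ x, g x ≠ x → g (g⁻¹ x) ≠ g⁻¹ x := by
    intro x hx h1
    rw [ai] at h1
    apply hx
    calc g x = g (g⁻¹ x) := by rw [← h1]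
      _ = x := ai g x
  have mh' : ∀ x, h x ≠ x → h (h⁻¹ x) ≠ h⁻¹ x := by
    intro x hx h1
    rw [ai] at h1
    apply hx
    calc h x = h (h⁻¹ x) := by rw [← h1]
      _ = x := ai h x
  have fg : ∀ x, h x ≠ x → x ≠ d → g x = x := fun x hx hxd => by
    by_contra hc
    exact hxd (hd x hc hx)
  have fh : ∀ x, g x ≠ x → x ≠ d → h x = x := fun x hx hxd => by
    by_contra hc
    exact hxd (hd x hx hc)
  have ig : ∀ x, g x = x → g⁻¹ x = x := fun x hx => by
    calc g⁻¹ x = g⁻¹ (g x) := by rw [hx]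
      _ = x := ia g x
  have ih : ∀ x, h x = x → h⁻¹ x = x := fun x hx => by
    calc h⁻¹ x = h⁻¹ (h x) := by rw [hx]
      _ = x := ia h x
  have hga : g (g d) ≠ g d := mg d hg
  have hhb : h (h d) ≠ h d := mh d hh
  have ha : h (g d) = g d := fh _ hga hg
  have hb : g (h d) = h d := fg _ hhb hh
  have hab : g d ≠ h d := by
    intro h1
    apply hga
    rw [h1, hb]
  -- the commutator
  have cd : (g * h * g⁻¹ * h⁻¹) d = g d := by
    have h1 : h⁻¹ d ≠ d := by
      intro h2
      apply hh
      calc h d = h (h⁻¹ d) := by rw [h2]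
        _ = d := ai h d
    have h2 := fg _ (mh' d hh) h1
    show g (h (g⁻¹ (h⁻¹ d))) = g d
    rw [ig _ h2, ai]
  have ca : (g * h * g⁻¹ * h⁻¹) (g d) = h d := by
    show g (h (g⁻¹ (h⁻¹ (g d)))) = h d
    rw [ih _ ha, ia, hb]
  have cb : (g * h * g⁻¹ * h⁻¹) (h d) = d := by
    have h1 : g⁻¹ d ≠ d := by
      intro h2
      apply hg
      calc g d = g (g⁻¹ d) := by rw [h2]
        _ = d := ai g d
    have h2 := fh _ (mg' d hg) h1
    show g (h (g⁻¹ (h⁻¹ (h d)))) = d
    rw [ia, h2, ai]
  have cx : ∀ x, x ≠ d → x ≠ g d → x ≠ h d → (g * h * g⁻¹ * h⁻¹) x = x := by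
    intro x hx1 hx2 hx3
    show g (h (g⁻¹ (h⁻¹ x))) = x
    by_cases h1 : h x = x
    · rw [ih x h1]
      by_cases h2 : g x = x
      · rw [ig x h2, h1, h2]
      · have h3 : g⁻¹ x ≠ d := fun h4 => hx2 (by rw [← h4, ai])
        rw [fh _ (mg' x h2) h3, ai]
    · have h3 : h⁻¹ x ≠ d := fun h4 => hx3 (by rw [← h4, ai])
      rw [ig _ (fg _ (mh' x h1) h3), ai, fg x h1 hx1]
  rw [← card_support_eq_three_iff]
  have hs : (g * h * g⁻¹ * h⁻¹).support = {d, g d, h d} := by
    ext x
    rw [Perm.mem_support, mem_insert, mem_insert, mem_singleton]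
    constructor
    · intro h1
      by_contra hcon
      push Not at hcon
      exact h1 (cx x hcon.1 hcon.2.1 hcon.2.2)
    · rintro (rfl | rfl | rfl)
      · rw [cd]; exact hg
      · rw [ca]; exact hab.symm
      · rw [cb]; exact hh.symm
  rw [hs]
  exact card_eq_three.2 ⟨d, g d, h d, hg.symm, hh.symm, hab, rfl⟩

/-! ### Bochert's bound -/

open Classical in
/-- Bochert: a primitive group which does not contain the alternating group has large index. -/
theorem bochert (G : Subgroup (Perm Ω)) (hG : MulAction.IsPreprimitive G Ω)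
    (hA : ¬ alternatingGroup Ω ≤ G) : ((Fintype.card Ω + 1) / 2).factorial ≤ G.index := by
  -- a minimal base
  obtain ⟨D, hD, hmin⟩ := exists_min_image
    (univ.filter fun D : Finset Ω => ∀ g ∈ G, (∀ x ∈ D, g x = x) → g = 1) card
    ⟨univ, mem_filter.2 ⟨mem_univ _, fun g _ hg => Equiv.ext fun x => hg x (mem_univ x)⟩⟩
  rw [mem_filter] at hD
  have hD2 : 2 * D.card ≤ Fintype.card Ω := by
    by_contra hcon
    have h1 : Dᶜ.card < D.card := by
      rw [card_compl]
      omega
    have h2 : ∀ E : Finset Ω, E.card < D.card → ∃ g ∈ G, (∀ x ∈ E, g x = x) ∧ g ≠ 1 := by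
      intro E hE
      by_contra hc
      push Not at hc
      have := hmin E (mem_filter.2 ⟨mem_univ _, hc⟩)
      omega
    obtain ⟨h, hhG, hh, hh1⟩ := h2 _ h1
    obtain ⟨d, hd⟩ : ∃ d, h d ≠ d := by
      by_contra hc
      push Not at hc
      exact hh1 (Equiv.ext hc)
    have hdD : d ∈ D := by
      by_contra hc
      exact hd (hh d (mem_compl.2 hc))
    obtain ⟨g, hgG, hg, hg1⟩ := h2 (D.erase d) (by
      rw [card_erase_of_mem hdD]
      have := card_pos.2 ⟨d, hdD⟩
      omega)
    have hgd : g d ≠ d := by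
      intro hc
      apply hg1
      apply hD.2 g hgG
      intro x hx
      by_cases hxd : x = d
      · rw [hxd, hc]
      · exact hg x (mem_erase.2 ⟨hxd, hx⟩)
    have h3 := isThreeCycle_comm hgd hd (by
      intro x hx1 hx2
      by_contra hxd
      by_cases hxD : x ∈ D
      · exact hx1 (hg x (mem_erase.2 ⟨hxd, hxD⟩))
      · exact hx2 (hh x (mem_compl.2 hxD)))
    exact hA (Perm.alternatingGroup_le_of_isPreprimitive_of_isThreeCycle_mem hG h3
      (G.mul_mem (G.mul_mem (G.mul_mem hgG hhG) (G.inv_mem hgG)) (G.inv_mem hhG)))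
  have h1 := card_le_index G (fun σ : Perm {x // x ∉ D} => Perm.ofSubtype σ) (by
    intro σ τ hστ
    have h2 := hD.2 _ hστ (by
      intro x hx
      rw [Perm.mul_apply, Perm.ofSubtype_apply_of_not_mem τ (by simpa using hx), ← map_inv,
        Perm.ofSubtype_apply_of_not_mem _ (by simpa using hx)])
    have h3 : Perm.ofSubtype σ = Perm.ofSubtype τ := by
      rw [inv_mul_eq_one] at h2
      exact h2
    exact Perm.ofSubtype_injective h3)
  rw [Fintype.card_perm] at h1
  refine le_trans (Nat.factorial_le ?_) h1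
  rw [Fintype.card_subtype_compl, Fintype.card_coe]
  omega

/-! ### Imprimitive groups -/

omit [Fintype Ω] [DecidableEq Ω] in
theorem quarter_le {m b : ℕ} (hm : 2 ≤ m) (hb : 2 ≤ b) : m * b / 4 ≤ (m - 1) * (b - 1) := by
  obtain ⟨m', rfl⟩ : ∃ m', m = m' + 2 := ⟨m - 2, by omega⟩
  obtain ⟨b', rfl⟩ : ∃ b', b = b' + 2 := ⟨b - 2, by omega⟩
  have e1 : m' + 2 - 1 = m' + 1 := by omega
  have e2 : b' + 2 - 1 = b' + 1 := by omega
  rw [e1, e2]
  apply Nat.div_le_of_le_mul
  nlinarith [Nat.zero_le (m' * b')]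

omit [Fintype Ω] [DecidableEq Ω] in
theorem two_pow_le_factorial (t : ℕ) : 2 ^ t ≤ (t + 1).factorial := by
  induction t with
  | zero => simp
  | succ t ih =>
    rw [Nat.factorial_succ, pow_succ]
    nlinarith

omit [DecidableEq Ω] in
open Classical in
/-- A transitive group which preserves a nontrivial equivalence relation has large index. -/
theorem imprim (G : Subgroup (Perm Ω)) (r : Setoid Ω)
    (hinv : ∀ g ∈ G, ∀ x y, r x y → r (g x) (g y)) (htr : ∀ x y, ∃ g ∈ G, g x = y)
    {x1 y1 : Ω} (h1 : x1 ≠ y1) (h2 : r x1 y1) {x2 y2 : Ω} (h3 : ¬ r x2 y2) :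
    2 ^ (Fintype.card Ω / 4) ≤ G.index := by
  have hfib : ∀ q : Quotient r, Nonempty ({x // Quotient.mk r x = q} ≃
      {x // Quotient.mk r x = Quotient.mk r x1}) := by
    intro q
    obtain ⟨y, rfl⟩ := Quotient.exists_rep q
    obtain ⟨g, hg, hgy⟩ := htr y x1
    have key : ∀ z, Quotient.mk r z = Quotient.mk r y ↔
        Quotient.mk r (g z) = Quotient.mk r x1 := by
      intro z
      rw [Quotient.eq, Quotient.eq]
      constructor
      · intro h
        have := hinv g hg _ _ h
        rwa [hgy] at this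
      · intro h
        have h4 := hinv g⁻¹ (G.inv_mem hg) _ _ h
        rw [ia, ← hgy, ia] at h4
        exact h4
    exact ⟨g.subtypeEquiv key⟩
  set b := Fintype.card {x // Quotient.mk r x = Quotient.mk r x1} with hb
  have hb2 : 2 ≤ b := by
    have : 1 < b := by
      rw [hb, Fintype.one_lt_card_iff]
      refine ⟨⟨x1, rfl⟩, ⟨y1, ?_⟩, ?_⟩
      · rw [Quotient.eq]
        exact r.symm' h2
      · intro hc
        exact h1 (congrArg Subtype.val hc)
    exact this
  set m := Fintype.card (Quotient r) with hm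
  have hm2 : 2 ≤ m := by
    have : 1 < m := by
      rw [hm, Fintype.one_lt_card_iff]
      refine ⟨Quotient.mk r x2, Quotient.mk r y2, ?_⟩
      intro hc
      exact h3 (Quotient.eq.1 hc)
    exact this
  let eq : ∀ q : Quotient r, {x // Quotient.mk r x = q} ≃ Fin b := fun q =>
    (hfib q).some.trans (Fintype.equivFin _)
  let e : Ω ≃ Quotient r × Fin b :=
    (Equiv.sigmaFiberEquiv (Quotient.mk r)).symm.trans
      ((Equiv.sigmaCongrRight eq).trans (Equiv.sigmaEquivProd (Quotient r) (Fin b)))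
  have he : ∀ x, (e x).1 = Quotient.mk r x := fun x => rfl
  have hcard : Fintype.card Ω = m * b := by
    rw [Fintype.card_congr e, Fintype.card_prod, Fintype.card_fin]
  let j0 : Fin b := ⟨0, by omega⟩
  let F : ({j : Fin b // j ≠ j0} → Perm (Quotient r)) → Fin b → Perm (Quotient r) :=
    fun f j => if h : j ≠ j0 then f ⟨j, h⟩ else 1
  have hF0 : ∀ f, F f j0 = 1 := fun f => by simp [F]
  let σ : ({j : Fin b // j ≠ j0} → Perm (Quotient r)) → Perm Ω :=
    fun f => (e.trans (Equiv.prodCongrLeft (F f))).trans e.symm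
  have hσ : ∀ f x, e (σ f x) = (F f (e x).2 (e x).1, (e x).2) := by
    intro f x
    simp [σ, Equiv.prodCongrLeft]
  have hι := card_le_index G σ (by
    intro f f' hff
    have hτ : ∀ x, σ f (((σ f)⁻¹ * σ f') x) = σ f' x := by
      intro x
      rw [Perm.mul_apply, ai]
    have h4 : ∀ x, (e (((σ f)⁻¹ * σ f') x)).2 = (e x).2 ∧
        F f (e x).2 (e (((σ f)⁻¹ * σ f') x)).1 = F f' (e x).2 (e x).1 := by
      intro x
      have h5 := congrArg e (hτ x)
      rw [hσ, hσ, Prod.mk.injEq] at h5
      refine ⟨h5.2, ?_⟩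
      have h6 := h5.1
      rw [h5.2] at h6
      exact h6
    have h5 : ∀ q j, (e (((σ f)⁻¹ * σ f') (e.symm (q, j)))).1 = q := by
      intro q j
      have h6 : r (e.symm (q, j)) (e.symm (q, j0)) := by
        apply Quotient.eq.1
        rw [← he, ← he, Equiv.apply_symm_apply, Equiv.apply_symm_apply]
      have h7 := hinv _ hff _ _ h6
      have h8 := Quotient.eq.2 h7
      rw [← he, ← he] at h8
      rw [h8]
      have h9 := (h4 (e.symm (q, j0))).2
      rw [Equiv.apply_symm_apply] at h9
      simp only [hF0, Perm.one_apply] at h9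
      exact h9
    funext j
    ext q
    have h6 := (h4 (e.symm (q, j.1))).2
    rw [h5, Equiv.apply_symm_apply] at h6
    have h7 : ∀ f, F f j.1 = f j := by
      intro f
      simp [F, j.2]
    simp only [h7] at h6
    exact h6)
  have h4 := two_pow_le_factorial
  have h5 : Fintype.card ({j : Fin b // j ≠ j0} → Perm (Quotient r)) =
      m.factorial ^ (b - 1) := by
    rw [Fintype.card_fun, Fintype.card_perm, Fintype.card_subtype_compl, Fintype.card_fin,
      Fintype.card_subtype_eq]
  rw [h5] at hι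
  have h6 : Fintype.card Ω / 4 ≤ (m - 1) * (b - 1) := by
    rw [hcard]
    exact quarter_le hm2 hb2
  calc 2 ^ (Fintype.card Ω / 4) ≤ 2 ^ ((m - 1) * (b - 1)) :=
        Nat.pow_le_pow_right (by norm_num) h6
    _ = (2 ^ (m - 1)) ^ (b - 1) := by rw [pow_mul]
    _ ≤ (m.factorial) ^ (b - 1) := by
        apply Nat.pow_le_pow_left
        have := h4 (m - 1)
        rwa [Nat.sub_add_cancel (by omega : 1 ≤ m)] at this
    _ ≤ G.index := hι

omit [DecidableEq Ω] in
open scoped Pointwise in
theorem isPreprimitive (G : Subgroup (Perm Ω)) (htr : ∀ x y, ∃ g ∈ G, g x = y)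
    (hidx : G.index < 2 ^ (Fintype.card Ω / 4)) : MulAction.IsPreprimitive G Ω := by
  have hpt : MulAction.IsPretransitive G Ω := by
    refine ⟨fun x y => ?_⟩
    obtain ⟨g, hg, h⟩ := htr x y
    exact ⟨⟨g, hg⟩, h⟩
  refine { toIsPretransitive := hpt, isTrivialBlock_of_isBlock := ?_ }
  intro B hB
  by_contra hcon
  unfold MulAction.IsTrivialBlock at hcon
  push Not at hcon
  obtain ⟨hns, hnu⟩ := hcon
  obtain ⟨x1, hx1, y1, hy1, hxy⟩ := Set.not_subsingleton_iff.1 (by simpa using hns)
  obtain ⟨z, hz⟩ : ∃ z, z ∉ B := by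
    by_contra hc
    push Not at hc
    exact hnu (Set.eq_univ_of_forall hc)
  have hblk := MulAction.isBlock_iff_smul_eq_smul_of_nonempty.1 hB
  let r : Setoid Ω :=
    { r := fun x y => ∃ g : G, x ∈ g • B ∧ y ∈ g • B
      iseqv :=
        { refl := by
            intro x
            obtain ⟨g, hg⟩ := hpt.exists_smul_eq x1 x
            exact ⟨g, ⟨x1, hx1, hg⟩, ⟨x1, hx1, hg⟩⟩
          symm := by
            rintro x y ⟨g, hx, hy⟩
            exact ⟨g, hy, hx⟩
          trans := by
            rintro x y z ⟨g, hx, hy⟩ ⟨g', hy', hz'⟩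
            have := hblk ⟨y, hy, hy'⟩
            rw [← this] at hz'
            exact ⟨g, hx, hz'⟩ } }
  have h1 := imprim G r (by
    rintro g hg x y ⟨g', ⟨x', hx', hx⟩, ⟨y', hy', hy⟩⟩
    refine ⟨⟨g, hg⟩ * g', ⟨x', hx', ?_⟩, ⟨y', hy', ?_⟩⟩
    · show (⟨g, hg⟩ * g' : G) • x' = g x
      rw [mul_smul]
      have hx2 : g' • x' = x := hx
      rw [hx2]
      rfl
    · show (⟨g, hg⟩ * g' : G) • y' = g y
      rw [mul_smul]
      have hy2 : g' • y' = y := hy
      rw [hy2]
      rfl) htr hxy (show r x1 y1 from ⟨1, by rwa [one_smul], by rwa [one_smul]⟩)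
    (x2 := x1) (y2 := z) (by
      rintro ⟨g, hx, hz'⟩
      have h2 : (1 : G) • B = g • B := hblk ⟨x1, by rwa [one_smul], hx⟩
      rw [← h2, one_smul] at hz'
      exact hz hz')
  omega

/-! ### The support theorem -/

/-- **Small supports.** A subgroup of the symmetric group on `N` points, of index less than
`C(N,k)` (`8 k ≤ N`) and less than `2 ^ (N / 8)`, contains all even permutations which fix every
point of a certain set `X` of fewer than `k` points. The set `X` is invariant under the subgroup,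
which is transitive outside of `X`. -/
theorem support_inv (H : Subgroup (Perm Ω)) (k : ℕ) (hk : 8 * k ≤ Fintype.card Ω)
    (h1 : H.index < (Fintype.card Ω).choose k) (h2 : H.index < 2 ^ (Fintype.card Ω / 8)) :
    ∃ X : Finset Ω, X.card < k ∧ Inv H X ∧ (∀ x, x ∉ X → ∀ y, y ∉ X → ∃ h ∈ H, h x = y) ∧
      ∀ σ : Perm Ω, σ ∈ alternatingGroup Ω → (∀ x ∈ X, σ x = x) → σ ∈ H := by
  classical
  have hidx : 0 < H.index := Nat.pos_of_ne_zero Subgroup.index_ne_zero_of_finite
  have hk0 : 0 < k := by
    rcases Nat.eq_zero_or_pos k with h | h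
    · rw [h, Nat.choose_zero_right] at h1
      omega
    · exact h
  obtain ⟨A, hAk, hA, hAtr⟩ := big_orbit H k hk0 (by omega) (by
    intro A hA h3 h4
    have h5 := choose_le_index H A hA
    have h6 := choose_le_choose_mid h3 h4
    omega)
  refine ⟨A, hAk, hA, hAtr, ?_⟩
  -- the pointwise stabiliser of `A`
  let f : Perm {x // x ∉ A} →* Perm Ω := Perm.ofSubtype
  let G : Subgroup (Perm {x // x ∉ A}) := H.comap f
  have hGidx : G.index ≤ H.index := by
    have h3 := card_le_index H (fun q : Perm {x // x ∉ A} ⧸ G => f q.out) (by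
      intro i j hij
      have h4 : (i.out)⁻¹ * j.out ∈ G := by
        show f ((i.out)⁻¹ * j.out) ∈ H
        rw [map_mul, map_inv]
        exact hij
      have h5 := QuotientGroup.eq.2 h4
      rw [QuotientGroup.out_eq', QuotientGroup.out_eq'] at h5
      exact h5)
    rw [← Nat.card_eq_fintype_card] at h3
    exact h3
  have hN : Fintype.card {x // x ∉ A} + A.card = Fintype.card Ω := by
    rw [Fintype.card_subtype_compl, Fintype.card_coe]
    have := card_le_univ A
    omega
  have hA1 : A.card + 1 ≤ k := hAk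
  obtain ⟨B, hBk, hB, hBtr⟩ := big_orbit G (Fintype.card Ω / 8) (by omega) (by omega) (by
    intro B hB h3 h4
    have h5 := choose_le_index G B hB
    have h6 := two_pow_le_choose h3 h4
    omega)
  -- `B` is empty
  have hB0 : ∀ a, a ∉ B := by
    intro a haB
    obtain ⟨x, hx⟩ : ∃ x, x ∉ B := by
      by_contra hc
      push Not at hc
      have h3 := card_le_card (fun z _ => hc z : (univ : Finset {x // x ∉ A}) ⊆ B)
      rw [card_univ] at h3
      omega
    obtain ⟨h, hh, hxa⟩ := hAtr x.1 x.2 a.1 a.2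
    have hiff : ∀ z, (h z ∉ A) ↔ (z ∉ A) := fun z => not_congr (hA.iff hh z)
    let h' : Perm {x // x ∉ A} := h.subtypePerm hiff
    have hconj : ∀ g ∈ G, h' * g * h'⁻¹ ∈ G := by
      intro g hg
      show f (h' * g * h'⁻¹) ∈ H
      have h3 : f (h' * g * h'⁻¹) = h * f g * h⁻¹ := by
        ext z
        by_cases hz : z ∈ A
        · have h4 : h⁻¹ z ∈ A := (hA.iff (H.inv_mem hh) z).2 hz
          have h5 : f (h' * g * h'⁻¹) z = z :=
            Perm.ofSubtype_apply_of_not_mem _ (by simpa using hz)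
          have h6 : f g (h⁻¹ z) = h⁻¹ z :=
            Perm.ofSubtype_apply_of_not_mem _ (by simpa using h4)
          rw [h5, Perm.mul_apply, Perm.mul_apply, h6, ai]
        · have h4 : h⁻¹ z ∉ A := fun h5 => hz ((hA.iff (H.inv_mem hh) z).1 h5)
          have h5 : f (h' * g * h'⁻¹) z = ((h' * g * h'⁻¹) ⟨z, hz⟩ : {x // x ∉ A}).1 :=
            Perm.ofSubtype_apply_of_mem (p := fun x => x ∉ A) _ hz
          have h6 : f g (h⁻¹ z) = (g ⟨h⁻¹ z, h4⟩).1 :=
            Perm.ofSubtype_apply_of_mem (p := fun x => x ∉ A) _ h4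
          have h7 : h'⁻¹ ⟨z, hz⟩ = ⟨h⁻¹ z, h4⟩ := by
            rw [Perm.inv_eq_iff_eq]
            apply Subtype.ext
            show z = h (h⁻¹ z)
            rw [ai]
          have h8 : (h * f g * h⁻¹) z = h (f g (h⁻¹ z)) := rfl
          rw [h5, h8, h6, Perm.mul_apply, Perm.mul_apply, h7]
          rfl
      rw [h3]
      exact H.mul_mem (H.mul_mem hh hg) (H.inv_mem hh)
    have hh'x : h' x = a := Subtype.ext hxa
    have hmap : ∀ y ∈ Bᶜ, h' y ∈ B := by
      intro y hy
      rw [mem_compl] at hy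
      obtain ⟨g, hg, hgy⟩ := hBtr x hx y hy
      have h3 := hB _ (hconj g hg) a haB
      rw [Perm.mul_apply, Perm.mul_apply, ← hh'x, ia, hgy] at h3
      exact h3
    have h3 : Bᶜ.card ≤ B.card := card_le_card_of_injOn h' hmap h'.injective.injOn
    rw [card_compl] at h3
    omega
  have hGtr : ∀ x y, ∃ g ∈ G, g x = y := fun x y => hBtr x (hB0 x) y (hB0 y)
  have hprim := isPreprimitive G hGtr (by
    refine lt_of_le_of_lt hGidx (lt_of_lt_of_le h2 (Nat.pow_le_pow_right (by norm_num) ?_))
    omega)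
  have hAlt : alternatingGroup {x // x ∉ A} ≤ G := by
    by_contra hc
    have h3 := bochert G hprim hc
    have h4 := two_pow_le_factorial ((Fintype.card {x // x ∉ A} + 1) / 2 - 1)
    rw [Nat.sub_add_cancel (by omega)] at h4
    have h5 : 2 ^ (Fintype.card Ω / 8) ≤ 2 ^ ((Fintype.card {x // x ∉ A} + 1) / 2 - 1) :=
      Nat.pow_le_pow_right (by norm_num) (by omega)
    omega
  intro σ hσ hσA
  have h3 : ∀ z, σ z ∉ A ↔ z ∉ A := by
    intro z
    constructor
    · intro h4 h5
      rw [hσA z h5] at h4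
      exact h4 h5
    · intro h4 h5
      have h6 := hσA _ h5
      have h7 := σ.injective h6
      rw [h7] at h5
      exact h4 h5
  have h4 : f (σ.subtypePerm h3) = σ := Perm.ofSubtype_subtypePerm h3 (by
    intro z hz h5
    exact hz (hσA z h5))
  have h5 : σ.subtypePerm h3 ∈ G := by
    apply hAlt
    rw [Perm.mem_alternatingGroup] at hσ ⊢
    rw [← Perm.sign_ofSubtype]
    rw [← hσ]
    exact congrArg _ h4
  rw [← h4]
  exact h5

/-- **Small supports.** A subgroup of the symmetric group on `N` points, of index less than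
`C(N,k)` (`8 k ≤ N`) and less than `2 ^ (N / 8)`, contains all even permutations which fix every
point of a certain set `X` of fewer than `k` points. -/
theorem support (H : Subgroup (Perm Ω)) (k : ℕ) (hk : 8 * k ≤ Fintype.card Ω)
    (h1 : H.index < (Fintype.card Ω).choose k) (h2 : H.index < 2 ^ (Fintype.card Ω / 8)) :
    ∃ X : Finset Ω, X.card < k ∧
      ∀ σ : Perm Ω, σ ∈ alternatingGroup Ω → (∀ x ∈ X, σ x = x) → σ ∈ H := by
  obtain ⟨X, h3, -, -, h4⟩ := support_inv H k hk h1 h2
  exact ⟨X, h3, h4⟩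

/-- The support is the set of the points with small orbits. -/
theorem mem_support_iff {H : Subgroup (Perm Ω)} {k : ℕ} (hk : 8 * k ≤ Fintype.card Ω)
    {X : Finset Ω} (hX : X.card < k) (hi : Inv H X)
    (ht : ∀ x, x ∉ X → ∀ y, y ∉ X → ∃ h ∈ H, h x = y) (x : Ω) :
    x ∈ X ↔ 2 * (orb H x).card ≤ Fintype.card Ω := by
  constructor
  · intro hx
    have h1 : orb H x ⊆ X := by
      intro y hy
      obtain ⟨h, hh, rfl⟩ := mem_orb.1 hy
      exact hi h hh x hx
    have h2 := card_le_card h1
    omega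
  · intro h1
    by_contra hx
    have h2 : Xᶜ ⊆ orb H x := by
      intro y hy
      exact mem_orb.2 (ht x hx y (mem_compl.1 hy))
    have h3 := card_le_card h2
    rw [card_compl] at h3
    omega

end

end Pool.H31.SF
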